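import Pool.Agent.Lib.H45Osc.Chang

/-!
# The posed colouring for `κ = ω₂` and a closed version of Chang's conjecture

There is a colouring of the pairs from `ω₂` by countable ordinals which takes every countable
ordinal as a value on every closed copy of `ω₁` in `ω₂` if and only if there is a map from the
finite subsets of `ω₂` to `ω₁` which is unbounded on every closed copy of `ω₁` in `ω₂`.
-/

set_option autoImplicit false

namespace Pool.Agent.Results.MP_dbd8eb_lc.ChangOmega2

/-- `A` is a set of ordinals below `ω₂`, of order type exactly `ω₁`, which is closed in its own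
supremum. -/
def IsClosedCopy (A : Set Ordinal.{0}) : Prop :=
  A ⊆ Set.Iio (Cardinal.aleph.{0} 2).ord ∧
    (∀ B ⊆ A, B.Nonempty → (∃ a ∈ A, ∀ b ∈ B, b ≤ a) → sSup B ∈ A) ∧
    Nonempty (A ≃o Set.Iio (Cardinal.aleph.{0} 1).ord)

/-- The posed statement for `κ = ω₂`: some `c : [ω₂]² → ω₁` takes every value on every closed
copy of `ω₁`. -/
def SurjectiveOnCopies : Prop :=
  ∃ c : Ordinal.{0} → Ordinal.{0} → Ordinal.{0},
    (∀ α β : Ordinal.{0}, α < β → β < (Cardinal.aleph 2).ord → c α β < (Cardinal.aleph 1).ord) ∧
    ∀ A : Set Ordinal.{0}, IsClosedCopy A →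
      ∀ ξ < (Cardinal.aleph 1).ord, ∃ α ∈ A, ∃ β ∈ A, α < β ∧ c α β = ξ

/-- Some `f : [ω₂]^{<ω} → ω₁` is unbounded in `ω₁` on the finite subsets of every closed copy of
`ω₁`. -/
def UnboundedOnCopies : Prop :=
  ∃ f : Finset Ordinal.{0} → Ordinal.{0},
    (∀ F, f F < (Cardinal.aleph 1).ord) ∧
    ∀ A : Set Ordinal.{0}, IsClosedCopy A →
      ∀ ν < (Cardinal.aleph 1).ord, ∃ F : Finset Ordinal.{0}, (F : Set Ordinal.{0}) ⊆ A ∧ ν ≤ f F

theorem result : SurjectiveOnCopies ↔ UnboundedOnCopies := by
  constructor
  · rintro ⟨c, hc, hcA⟩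
    classical
    refine ⟨fun F => if h : F.Nonempty then
      (if c (F.min' h) (F.max' h) < (Cardinal.aleph 1).ord then c (F.min' h) (F.max' h) else 0)
      else 0, ?_, ?_⟩
    · intro F
      show (if h : F.Nonempty then
        (if c (F.min' h) (F.max' h) < (Cardinal.aleph 1).ord then c (F.min' h) (F.max' h) else 0)
        else 0) < (Cardinal.aleph 1).ord
      split_ifs with h1 h2
      · exact h2
      · exact Pool.Agent.Lib.H45Osc.w1_pos
      · exact Pool.Agent.Lib.H45Osc.w1_pos
    · intro A hA ν hν
      obtain ⟨α, hα, β, hβ, hαβ, hcν⟩ := hcA A hA ν hν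
      refine ⟨{α, β}, ?_, ?_⟩
      · intro x hx
        rw [Finset.coe_pair] at hx
        rcases hx with rfl | rfl
        · exact hα
        · exact hβ
      · have hne : ({α, β} : Finset Ordinal.{0}).Nonempty := ⟨α, by simp⟩
        have hmin : ({α, β} : Finset Ordinal.{0}).min' hne = α := by
          apply le_antisymm
          · exact Finset.min'_le _ _ (by simp)
          · refine Finset.le_min' _ _ _ ?_
            intro y hy
            rw [Finset.mem_insert, Finset.mem_singleton] at hy
            rcases hy with rfl | rfl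
            · exact le_rfl
            · exact hαβ.le
        have hmax : ({α, β} : Finset Ordinal.{0}).max' hne = β := by
          apply le_antisymm
          · refine Finset.max'_le _ _ _ ?_
            intro y hy
            rw [Finset.mem_insert, Finset.mem_singleton] at hy
            rcases hy with rfl | rfl
            · exact hαβ.le
            · exact le_rfl
          · exact Finset.le_max' _ _ (by simp)
        show ν ≤ if h : ({α, β} : Finset Ordinal.{0}).Nonempty then
          (if c (({α, β} : Finset Ordinal.{0}).min' h) (({α, β} : Finset Ordinal.{0}).max' h) <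
            (Cardinal.aleph 1).ord then
            c (({α, β} : Finset Ordinal.{0}).min' h) (({α, β} : Finset Ordinal.{0}).max' h) else 0)
          else 0
        rw [dif_pos hne, hmin, hmax, hcν, if_pos hν]
  · rintro ⟨f, hf, hfA⟩
    refine ⟨Pool.Agent.Lib.H45Osc.col f, ?_, ?_⟩
    · intro α β hαβ hβ
      exact Pool.Agent.Lib.H45Osc.col_lt hf hαβ hβ
    · intro A hA ξ hξ
      have hA' : Pool.Agent.Lib.H45Osc.IsClosedCopy A := ⟨hA.2.1, hA.2.2⟩
      have h1 := Pool.Agent.Lib.H45Osc.main hA' (f := f) (ξ := ξ) hf
        (fun B hB hBc ν hν => hfA B ⟨hB.trans hA.1, hBc.1, hBc.2⟩ ν hν)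
        (fun α hα => hA.1 hα) hξ
      unfold Pool.Agent.Lib.H45Osc.Miss at h1
      push Not at h1
      exact h1

end Pool.Agent.Results.MP_dbd8eb_lc.ChangOmega2
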