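import Pool.Agent.Lib.H91W.G1
import Pool.Agent.Lib.H91X.P2

/-!
# Cardinals for which the posed colouring does not exist

If some cardinal has no colouring `c : [κ]² → ω₁` which takes every value on every closed copy of
`ω₁`, then `0^♯` exists (and `V ≠ L`).  Moreover the least such cardinal `κ` is a regular cardinal
greater than `ω₁`, and for every set `B` of countable ordinals there is an inner model `N` of ZFC
which contains `B` and in which stationary many `β < κ` of cofinality `ω₁` are regular; for `B = ∅`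
this holds with `N = L`.
-/

set_option autoImplicit false

namespace Pool.Agent.Results.MP_dbd8eb_lc.LeastCounterexample

open Pool.Agent.Helper43.KK

/-- The posed statement for the cardinal `κ` (as in the frozen Lean statement): some
`c : [κ]² → ω₁` takes every value on every closed copy of `ω₁` in `κ`. -/
def PosedFor (κ : Cardinal.{0}) : Prop :=
  ∃ c : Ordinal.{0} → Ordinal.{0} → Ordinal.{0},
    (∀ α β : Ordinal.{0}, α < β → β < κ.ord → c α β < (Cardinal.aleph 1).ord) ∧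
    ∀ A : Set Ordinal.{0}, A ⊆ Set.Iio κ.ord →
      (∀ B ⊆ A, B.Nonempty → (∃ a ∈ A, ∀ b ∈ B, b ≤ a) → sSup B ∈ A) →
      Nonempty (A ≃o Set.Iio (Cardinal.aleph.{0} 1).ord) →
      ∀ ξ < (Cardinal.aleph 1).ord, ∃ α ∈ A, ∃ β ∈ A, α < β ∧ c α β = ξ

/-- The intersection of `C` with the limit ordinal `μ` is closed and unbounded in `μ`. -/
def IsClub (μ : Ordinal.{0}) (C : Set Ordinal.{0}) : Prop :=
  (∀ x < μ, ∃ y ∈ C, x < y ∧ y < μ) ∧
  ∀ δ < μ, δ ≠ 0 → (∀ x < δ, ∃ y ∈ C, x < y ∧ y < δ) → δ ∈ C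

/-- The set `x` is constructible. -/
def InL (x : ZFSet.{0}) : Prop := ∃ α : Ordinal.{0}, x ∈ LLevel α

/-- `β` is singular in `L`: the graph (a set of Kuratowski pairs of von Neumann ordinals) of some
map from an ordinal `γ < β` to `β` with cofinal range is constructible. -/
def SingularInL (β : Ordinal.{0}) : Prop :=
  ∃ γ < β, ∃ f : Ordinal.{0} → Ordinal.{0}, (∀ ξ < γ, f ξ < β) ∧ (∀ x < β, ∃ ξ < γ, x ≤ f ξ) ∧
    ∃ F : ZFSet.{0}, InL F ∧
      ∀ z : ZFSet.{0}, z ∈ F ↔ ∃ ξ < γ, z = ZFSet.pair ξ.toZFSet (f ξ).toZFSet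

/-- `0^♯` exists, in the form of Kunen: for some ordinals `η`, `θ` there is an elementary embedding
`j : (L_η, ∈) → (L_θ, ∈)` which moves an ordinal `δ` with `|δ| < |η|`. -/
def ZeroSharpExists : Prop :=
  ∃ (η θ δ : Ordinal.{0})
    (j : FirstOrder.Language.ElementaryEmbedding setLanguage (LLevel η) (LLevel θ))
    (h : δ.toZFSet ∈ LLevel η), δ.card < η.card ∧ (j ⟨δ.toZFSet, h⟩ : ZFSet.{0}) ≠ δ.toZFSet

/-- `N` is an inner model: a transitive class of sets which contains all ordinals and satisfies the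
axioms of ZFC (`ModelsZFC`: all axioms, with the separation and replacement schemas for all formulas
of the language of set theory with parameters from `N`). -/
structure InnerModel (N : ZFSet.{0} → Prop) : Prop where
  trans : ∀ x y, N x → y ∈ x → N y
  ord : ∀ α : Ordinal.{0}, N α.toZFSet
  zfc : Pool.Agent.H5Z.ModelsZFC (fun x y : {x // N x} => x.1 ∈ y.1)

/-- `β` is regular in `N`: no set of `N` is the graph of a partial function which maps an ordinal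
`γ < β` cofinally into `β`. -/
def RegularIn (N : ZFSet.{0} → Prop) (β : Ordinal.{0}) : Prop :=
  ∀ γ < β, ∀ f : ZFSet.{0}, N f →
    ¬ ((∀ ξ η η' : Ordinal.{0}, ZFSet.pair ξ.toZFSet η.toZFSet ∈ f →
        ZFSet.pair ξ.toZFSet η'.toZFSet ∈ f → η = η') ∧
      ∀ ζ < β, ∃ ξ < γ, ∃ η < β, ζ ≤ η ∧ ZFSet.pair ξ.toZFSet η.toZFSet ∈ f)

theorem result (κ : Cardinal.{0}) (hκ : ¬ PosedFor κ) (hmin : ∀ l < κ, PosedFor l) :
    κ.IsRegular ∧ Cardinal.aleph 1 < κ ∧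
    (∀ B : ZFSet.{0}, (∀ x ∈ B, x ∈ ((Cardinal.aleph.{0} 1).ord).toZFSet) →
      ∃ N : ZFSet.{0} → Prop, InnerModel N ∧ N B ∧ (∃ x, ¬ N x) ∧
        ∀ C : Set Ordinal.{0}, IsClub κ.ord C →
          ∃ β ∈ C, β < κ.ord ∧ β.cof = Cardinal.aleph 1 ∧ RegularIn N β) ∧
    (∀ C : Set Ordinal.{0}, IsClub κ.ord C →
      ∃ β ∈ C, β < κ.ord ∧ β.cof = Cardinal.aleph 1 ∧ ¬ SingularInL β) ∧
    (∃ x : ZFSet.{0}, ¬ InL x) ∧ ZeroSharpExists := by
  have hS : ∀ β, Pool.Agent.Lib.H91W.SingularInL β → SingularInL β := by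
    rintro β ⟨γ, hγ, f, h1, h2, F, h3, h4⟩
    exact ⟨γ, hγ, f, h1, h2, F, h4, h3⟩
  have hS' : ∀ β, SingularInL β → Pool.Agent.Lib.H91W.SingularInL β := by
    rintro β ⟨γ, hγ, f, h1, h2, F, h4, h3⟩
    exact ⟨γ, hγ, f, h1, h2, F, h3, h4⟩
  obtain ⟨h1, h2, h3⟩ := Pool.Agent.Lib.H91W.least (κ := κ) hκ hmin
  have h4 : ∀ C : Set Ordinal.{0}, IsClub κ.ord C →
      ∃ β ∈ C, β < κ.ord ∧ β.cof = Cardinal.aleph 1 ∧ ¬ SingularInL β := by
    intro C hC
    obtain ⟨β, hβ, h5, h6, h7⟩ := h3 C ⟨hC.1, hC.2⟩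
    exact ⟨β, hβ, h5, h6, fun h => h7 (hS' β h)⟩
  have h5 : ∀ B : ZFSet.{0}, (∀ x ∈ B, x ∈ ((Cardinal.aleph.{0} 1).ord).toZFSet) →
      ∃ N : ZFSet.{0} → Prop, InnerModel N ∧ N B ∧ (∃ x, ¬ N x) ∧
        ∀ C : Set Ordinal.{0}, IsClub κ.ord C →
          ∃ β ∈ C, β < κ.ord ∧ β.cof = Cardinal.aleph 1 ∧ RegularIn N β := by
    intro B hB
    obtain ⟨N, hN, hNB, hst⟩ := Pool.Agent.Lib.H91X.least_inner (κ := κ) hκ hmin B hB
    refine ⟨N, ⟨hN.trans, hN.ord, hN.zfc⟩, hNB, ?_, ?_⟩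
    · obtain ⟨β, -, -, hβw, hcof, hreg⟩ := hst Set.univ
        ⟨fun x hx => ⟨x + 1, trivial, Order.lt_add_one_iff.2 le_rfl,
          (Cardinal.isSuccLimit_ord h1.aleph0_le).add_one_lt hx⟩, fun _ _ _ _ => trivial⟩
      have hlβ : Order.IsSuccLimit β := by
        rw [← Ordinal.one_lt_cof_iff, hcof]
        exact Cardinal.one_lt_aleph0.trans_le (Cardinal.aleph0_le_aleph 1)
      obtain ⟨f, -, -, f1, f2⟩ := Pool.Agent.Lib.H91W.exists_f hlβ
      rw [hcof] at f1 f2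
      refine ⟨ZFSet.range (fun i : Set.Iio (Cardinal.aleph.{0} 1).ord =>
        ZFSet.pair i.1.toZFSet (f i.1).toZFSet), fun hn => ?_⟩
      refine hreg (Cardinal.aleph.{0} 1).ord hβw _ hn ⟨?_, ?_⟩
      · intro ξ η η' hη hη'
        rw [ZFSet.mem_range] at hη hη'
        obtain ⟨i, hi⟩ := hη
        obtain ⟨j, hj⟩ := hη'
        obtain ⟨hi1, hi2⟩ := ZFSet.pair_inj.1 hi
        obtain ⟨hj1, hj2⟩ := ZFSet.pair_inj.1 hj
        have hij : i.1 = j.1 := Ordinal.toZFSet_injective (hi1.trans hj1.symm)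
        have h6 : (f i.1).toZFSet = (f j.1).toZFSet := by rw [hij]
        exact Ordinal.toZFSet_injective (hi2.symm.trans (h6.trans hj2))
      · intro ζ hζ
        obtain ⟨i, hi, hi'⟩ := f2 ζ hζ
        exact ⟨i, hi, f i, f1 i hi, hi'.le, ZFSet.mem_range.2 ⟨⟨i, hi⟩, rfl⟩⟩
    · intro C hC
      obtain ⟨β, hβ, hβκ, -, hcof, hreg⟩ := hst C ⟨hC.1, hC.2⟩
      exact ⟨β, hβ, hβκ, hcof, fun γ hγ f hf h6 => hreg γ hγ f hf ⟨h6.1, h6.2⟩⟩
  refine ⟨h1, h2, h5, h4, ?_, ?_⟩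
  · -- if every set is constructible, all ordinals above `ω₁` of cofinality `ω₁` are singular in `L`
    by_contra hn
    push Not at hn
    have hlim : ∀ x < κ.ord, x + 1 < κ.ord := fun x hx =>
      (Cardinal.isSuccLimit_ord h1.aleph0_le).add_one_lt hx
    have hw : (Cardinal.aleph.{0} 1).ord < κ.ord := Cardinal.ord_lt_ord.2 h2
    obtain ⟨β, hβ, -, hcof, hns⟩ := h4 {y | (Cardinal.aleph.{0} 1).ord < y} ⟨by
      intro x hx
      refine ⟨max x (Cardinal.aleph.{0} 1).ord + 1, ?_, ?_, hlim _ (max_lt hx hw)⟩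
      · show (Cardinal.aleph.{0} 1).ord < max x (Cardinal.aleph.{0} 1).ord + 1
        exact (le_max_right _ _).trans_lt (Order.lt_add_one_iff.2 le_rfl)
      · exact (le_max_left _ _).trans_lt (Order.lt_add_one_iff.2 le_rfl), by
      intro δ hδ hδ0 h
      obtain ⟨y, hy, -, hy'⟩ := h 0 (pos_iff_ne_zero.2 hδ0)
      exact lt_trans (show (Cardinal.aleph.{0} 1).ord < y from hy) hy'⟩
    have hβw : (Cardinal.aleph.{0} 1).ord < β := hβ
    have hlβ : Order.IsSuccLimit β := by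
      rw [← Ordinal.one_lt_cof_iff, hcof]
      exact Cardinal.one_lt_aleph0.trans_le (Cardinal.aleph0_le_aleph 1)
    obtain ⟨f, -, -, f1, f2⟩ := Pool.Agent.Lib.H91W.exists_f hlβ
    rw [hcof] at f1 f2
    let F : ZFSet.{0} := ZFSet.range (fun i : Set.Iio (Cardinal.aleph.{0} 1).ord =>
      ZFSet.pair i.1.toZFSet (f i.1).toZFSet)
    refine hns ⟨(Cardinal.aleph.{0} 1).ord, hβw, f, f1, fun x hx => ?_, F, hn F, fun z => ?_⟩
    · obtain ⟨i, hi, hi'⟩ := f2 x hx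
      exact ⟨i, hi, hi'.le⟩
    · show z ∈ ZFSet.range _ ↔ _
      rw [ZFSet.mem_range]
      constructor
      · rintro ⟨i, rfl⟩
        exact ⟨i.1, i.2, rfl⟩
      · rintro ⟨ξ, hξ, rfl⟩
        exact ⟨⟨ξ, hξ⟩, rfl⟩
  · exact Pool.Agent.Lib.H91W.zeroSharp_all hκ

end Pool.Agent.Results.MP_dbd8eb_lc.LeastCounterexample
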