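import Pool.Agent.Lib.H45Osc.Copy

/-!
# Colourings of pairs of ordinals that are rich on closed copies of `ω₁`

For every map `h` from the ordinals to `ω₁` there is one colouring `c` of all pairs of ordinals
with countable ordinals such that every closed copy `A` of `ω₁` (inside any cardinal) contains
pairs of every finite colour, and also pairs of every colour `ξ < ω₁` such that every closed copy
of `ω₁` contained in `A` has a point at which `h` is at least `ξ`.

The colour of `α < β` is obtained by applying an enumeration of the ordinals `≤ max (h α) ω` to a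
slowly varying function of the number of times that a ladder below `α` crosses a ladder below `β`.
-/

set_option autoImplicit false

namespace Pool.Agent.Results.MP_dbd8eb_lc.OmegaColours

/-- `A` is a set of ordinals of order type exactly `ω₁` which is closed in its own supremum. -/
def IsClosedCopy (A : Set Ordinal.{0}) : Prop :=
  (∀ B ⊆ A, B.Nonempty → (∃ a ∈ A, ∀ b ∈ B, b ≤ a) → sSup B ∈ A) ∧
    Nonempty (A ≃o Set.Iio (Cardinal.aleph.{0} 1).ord)

open Pool.Agent.Lib.H45Osc in
theorem result (h : Ordinal.{0} → Ordinal.{0}) (hh : ∀ α, h α < (Cardinal.aleph 1).ord) :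
    ∃ c : Ordinal.{0} → Ordinal.{0} → Ordinal.{0},
      (∀ α β, c α β < (Cardinal.aleph 1).ord) ∧
      ∀ A : Set Ordinal.{0}, IsClosedCopy A → ∀ ξ < (Cardinal.aleph 1).ord,
        (ξ < Ordinal.omega0 ∨ ∀ B ⊆ A, IsClosedCopy B → ∃ β ∈ B, ξ ≤ h β) →
        ∃ α ∈ A, ∃ β ∈ A, α < β ∧ c α β = ξ := by
  have hω : Ordinal.omega0 < w1 := by
    rw [← Cardinal.ord_aleph0, ← Cardinal.aleph_zero]
    exact Cardinal.ord_lt_ord.2 (Cardinal.aleph_lt_aleph.2 zero_lt_one)
  have hm : ∀ α, max (h α) Ordinal.omega0 < w1 := fun α => max_lt (hh α) hω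
  refine ⟨fun α β => en (max (h α) Ordinal.omega0) (psi (osc lad α β)), ?_, ?_⟩
  · intro α β
    exact (en_le _ _).trans_lt (hm α)
  · intro A hA0 ξ hξ hor
    have hA : Pool.Agent.Lib.H45Osc.IsClosedCopy A := hA0
    have hstat : IsStationary {i | ξ ≤ max (h (hA.enum i)) Ordinal.omega0} := by
      refine hA.stationary_of (P := fun β => ξ ≤ max (h β) Ordinal.omega0) ?_
      intro B hB hBc
      rcases hor with h1 | h1
      · obtain ⟨b0⟩ := isOmega1_W.nonempty
        exact ⟨hBc.enum b0, hBc.enum_mem b0, h1.le.trans (le_max_right _ _)⟩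
      · obtain ⟨β, hβ, hβ'⟩ := h1 B hB hBc
        exact ⟨β, hβ, hβ'.trans (le_max_left _ _)⟩
    obtain ⟨n, hn⟩ := isOmega1_W.pigeon hstat
      (fun (n : ℕ) i => en (max (h (hA.enum i)) Ordinal.omega0) n = ξ)
      (fun i hi => en_surj (hm _) hi)
    obtain ⟨i, ⟨_, hi⟩, j, _, hij, _, _, hψ⟩ := hA.exists_psi hn
      (isStationary_univ_iff.2 isOmega1_W.nonempty) n
    refine ⟨hA.enum i, hA.enum_mem i, hA.enum j, hA.enum_mem j, hA.enum_strictMono hij, ?_⟩
    show en (max (h (hA.enum i)) Ordinal.omega0) (psi (osc lad (hA.enum i) (hA.enum j))) = ξ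
    rw [hψ]
    exact hi

end Pool.Agent.Results.MP_dbd8eb_lc.OmegaColours
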